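import Pool.Agent.H79.BR.Targets
import Pool.Agent.H54.LS.AVG

/-! Module CKP: the kernel of `mj` in polar coordinates. -/

set_option autoImplicit false

namespace Pool.Agent.H50.BR

open MeasureTheory Set FourierTransform
open Pool.Agent.H79.BR Pool.Agent.H83.AR Pool.Agent.H93.AR Pool.Agent.H83.LS Pool.Agent.H54.LS
open Pool.Agent.H14.LS

theorem nsp {n : ℕ} (w : Sp n) : ‖(w : EE n)‖ = 1 := by
  have := w.2
  rwa [mem_sphere_zero_iff_norm] at this

/-- the radial measure, Bochner version -/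
theorem nu_bint (n : ℕ) (G : ℝ → ℂ) :
    ∫ ρ : Ioi (0 : ℝ), G ρ ∂(nu n) = ∫ t in Ioi (0 : ℝ), ((t ^ (n - 1) : ℝ) : ℂ) * G t := by
  have h1 : Measurable fun ρ : Ioi (0 : ℝ) => ENNReal.ofReal ((ρ : ℝ) ^ (n - 1)) :=
    (ENNReal.measurable_ofReal.comp ((measurable_id.pow_const _).comp measurable_subtype_coe))
  show ∫ ρ : Ioi (0 : ℝ), G ρ ∂((Measure.comap Subtype.val volume).withDensity
    fun r : Ioi (0 : ℝ) => ENNReal.ofReal ((r : ℝ) ^ (n - 1))) = _
  rw [integral_withDensity_eq_integral_toReal_smul h1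
    (Filter.Eventually.of_forall fun _ => ENNReal.ofReal_lt_top)]
  rw [← integral_subtype_comap measurableSet_Ioi
    (fun t : ℝ => ((t ^ (n - 1) : ℝ) : ℂ) * G t)]
  refine integral_congr_ae (Filter.Eventually.of_forall fun ρ => ?_)
  have hρ : 0 < (ρ : ℝ) := ρ.2
  show (ENNReal.ofReal ((ρ : ℝ) ^ (n - 1))).toReal • G ρ = (((ρ : ℝ) ^ (n - 1) : ℝ) : ℂ) * G ρ
  rw [ENNReal.toReal_ofReal (by positivity), Complex.real_smul]

theorem hor_smul' {n : ℕ} {r : ℝ} (hr : 0 ≤ r) (x : EE (n + 1)) : hor (r • x) = r * hor x := by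
  unfold hor
  rw [norm_smul, Real.norm_of_nonneg hr]
  have h1 : (r • x) (Fin.last n) = r * x (Fin.last n) := rfl
  rw [h1]
  have h2 : (r * ‖x‖) ^ 2 - (r * x (Fin.last n)) ^ 2 = r ^ 2 * (‖x‖ ^ 2 - x (Fin.last n) ^ 2) := by
    ring
  rw [h2, Real.sqrt_mul (sq_nonneg r), Real.sqrt_sq hr]

/-- the integrand in polar coordinates -/
noncomputable def Hp (n : ℕ) (lam Lam t : ℝ) (x : EE (n + 1)) (w : EE (n + 1)) (r : ℝ) : ℂ :=
  ((r ^ n : ℝ) : ℂ) * (e (r * (t + inner ℝ x w)) *
    ((chi (r / lam) * chi (r * hor w / Lam) : ℝ) : ℂ))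

theorem inner_int (n : ℕ) {lam Lam t : ℝ} (hl : 0 < lam) (x : EE (n + 1))
    (w : Sp (n + 1)) :
    ∫ ρ : Ioi (0 : ℝ), e (inner ℝ x ((ρ : ℝ) • (w : EE (n + 1)))) *
        mj n lam Lam t ((ρ : ℝ) • (w : EE (n + 1))) ∂(nu (n + 1)) =
      ((lam ^ (n + 1) : ℝ) : ℂ) * ∫ s : ℝ, e (s * (lam * (t + inner ℝ x (w : EE (n + 1))))) *
        gj n (Lam / lam) (s, (w : EE (n + 1))) := by
  rw [nu_bint (n + 1) (fun r => e (inner ℝ x (r • (w : EE (n + 1)))) *
        mj n lam Lam t (r • (w : EE (n + 1))))]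
  have h1 : ∫ r in Ioi (0 : ℝ), ((r ^ (n + 1 - 1) : ℝ) : ℂ) *
      (e (inner ℝ x (r • (w : EE (n + 1)))) * mj n lam Lam t (r • (w : EE (n + 1)))) =
      ∫ r in Ioi (0 : ℝ), Hp n lam Lam t x w r := by
    refine setIntegral_congr_fun measurableSet_Ioi fun r hr => ?_
    have hr0 : 0 < r := hr
    show ((r ^ (n + 1 - 1) : ℝ) : ℂ) * (e (inner ℝ x (r • (w : EE (n + 1)))) *
      mj n lam Lam t (r • (w : EE (n + 1)))) = Hp n lam Lam t x w r
    unfold mj Hp
    rw [norm_smul, nsp, mul_one, Real.norm_of_nonneg hr0.le, hor_smul' hr0.le, real_inner_smul_right,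
      Nat.add_sub_cancel, ← mul_assoc (e _) (e _), ← e_add]
    congr 3
    ring
  rw [h1]
  have h2 : ∫ r in Ioi (0 : ℝ), Hp n lam Lam t x w r = ∫ r : ℝ, Hp n lam Lam t x w r := by
    refine setIntegral_eq_integral_of_forall_compl_eq_zero fun r hr => ?_
    have hr0 : r ≤ 0 := not_lt.1 hr
    have h3 : chi (r / lam) = 0 := by
      by_contra h4
      have h5 := (chi_supp h4).1
      have h6 : r / lam ≤ 0 := div_nonpos_of_nonpos_of_nonneg hr0 hl.le
      linarith
    unfold Hp
    rw [h3, zero_mul, Complex.ofReal_zero, mul_zero, mul_zero]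
  rw [h2]
  have h3 := Measure.integral_comp_mul_left (fun r => Hp n lam Lam t x w r) lam
  rw [abs_of_pos (inv_pos.2 hl)] at h3
  have h4 : ∫ r : ℝ, Hp n lam Lam t x w r = ((lam : ℝ) : ℂ) * ∫ s : ℝ, Hp n lam Lam t x w (lam * s) := by
    rw [h3, Complex.real_smul, ← mul_assoc, ← Complex.ofReal_mul, mul_inv_cancel₀ hl.ne',
      Complex.ofReal_one, one_mul]
  rw [h4, ← integral_const_mul, ← integral_const_mul]
  refine integral_congr_ae (Filter.Eventually.of_forall fun s => ?_)
  simp only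
  unfold Hp gj
  simp only
  have h5 : lam * s / lam = s := by
    rw [mul_comm, mul_div_assoc, div_self hl.ne', mul_one]
  have h6 : lam * s * hor (w : EE (n + 1)) / Lam = s * hor (w : EE (n + 1)) / (Lam / lam) := by
    rw [div_div_eq_mul_div]
    congr 1
    ring
  have h7 : lam * s * (t + inner ℝ x (w : EE (n + 1))) =
      s * (lam * (t + inner ℝ x (w : EE (n + 1)))) := by ring
  rw [h5, h6, h7]
  push_cast
  ring

theorem norm_gj_le (n : ℕ) (α s : ℝ) (w : EE (n + 1)) :
    ‖gj n α (s, w)‖ ≤ (Icc (0 : ℝ) 2).indicator (fun _ => (2 : ℝ) ^ n) s := by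
  unfold gj
  simp only
  by_cases hs : chi s = 0
  · rw [hs, zero_mul, mul_zero, Complex.ofReal_zero, norm_zero]
    exact indicator_nonneg (fun _ _ => by positivity) _
  · have h1 := chi_supp hs
    rw [indicator_of_mem (show s ∈ Icc (0 : ℝ) 2 from ⟨by linarith, h1.2⟩)]
    rw [Complex.norm_real, norm_mul, norm_mul, norm_pow, Real.norm_eq_abs, Real.norm_eq_abs,
      Real.norm_eq_abs, abs_of_nonneg (show (0 : ℝ) ≤ s by linarith)]
    have h2 : s ^ n ≤ 2 ^ n := pow_le_pow_left₀ (by linarith) h1.2 n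
    have h3 : |chi s| * |chi (s * hor w / α)| ≤ 1 :=
      mul_le_one₀ (chi_abs_le _) (abs_nonneg _) (chi_abs_le _)
    calc s ^ n * (|chi s| * |chi (s * hor w / α)|) ≤ 2 ^ n * 1 :=
          mul_le_mul h2 h3 (by positivity) (by positivity)
      _ = 2 ^ n := mul_one _

theorem gj_meas (n : ℕ) (α : ℝ) : Measurable (gj n α) := by
  unfold gj
  apply Complex.measurable_ofReal.comp
  apply Measurable.mul
  · fun_prop
  · apply Measurable.mul
    · exact chi_smooth.continuous.measurable.comp measurable_fst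
    · exact chi_smooth.continuous.measurable.comp
        ((measurable_fst.mul (hor_cont.measurable.comp measurable_snd)).div_const _)

/-- CKP: the kernel in polar coordinates -/
theorem pf_ckp : T_CKP := by
  intro n lam Lam t x hn hl hL
  have hA : MK (mj n lam Lam t) x = ((lam ^ (n + 1) : ℝ) : ℂ) * ∫ w : Sp (n + 1), ∫ s : ℝ,
      e (s * (lam * (t + inner ℝ x (w : EE (n + 1))))) *
        gj n (Lam / lam) (s, (w : EE (n + 1))) ∂volume ∂(sg (n + 1)) := by
    unfold MK
    have hFi : Integrable (fun ξ : EE (n + 1) => e (inner ℝ x ξ) * mj n lam Lam t ξ) := by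
      refine (mj_int n hl Lam t).norm.mono' ?_ (Filter.Eventually.of_forall fun ξ => ?_)
      · exact ((measurable_e.comp (by fun_prop)).mul (mj_meas' n lam Lam t)).aestronglyMeasurable
      · rw [norm_mul, norm_e, one_mul]
    rw [← integral_mp (mp_polar (n + 1) (Nat.succ_pos n)) hFi.aestronglyMeasurable]
    have hFi' : Integrable (fun q : Sp (n + 1) × Ioi (0 : ℝ) =>
        e (inner ℝ x ((q.2 : ℝ) • (q.1 : EE (n + 1)))) *
          mj n lam Lam t ((q.2 : ℝ) • (q.1 : EE (n + 1)))) ((sg (n + 1)).prod (nu (n + 1))) :=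
      (mp_polar (n + 1) (Nat.succ_pos n)).integrable_comp_of_integrable hFi
    rw [integral_prod _ hFi', ← integral_const_mul]
    refine integral_congr_ae (Filter.Eventually.of_forall fun w => ?_)
    exact inner_int n hl x w
  refine ⟨hA, fun hx => ?_⟩
  rw [hA]
  congr 1
  unfold osc
  have hx0 : ‖x‖ ≠ 0 := norm_ne_zero_iff.2 hx
  have h1 : ∀ (s : ℝ) (w : Sp (n + 1)),
      e (s * (lam * t - lam * ‖x‖ * inner ℝ (-(‖x‖⁻¹ • x)) (w : EE (n + 1)))) *
        gj n (Lam / lam) (s, (w : EE (n + 1))) =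
      e (s * (lam * (t + inner ℝ x (w : EE (n + 1))))) *
        gj n (Lam / lam) (s, (w : EE (n + 1))) := by
    intro s w
    congr 2
    rw [inner_neg_left, real_inner_smul_left]
    field_simp
    ring
  simp_rw [h1]
  refine integral_integral_swap (f := fun (w : Sp (n + 1)) (s : ℝ) =>
    e (s * (lam * (t + inner ℝ x (w : EE (n + 1))))) * gj n (Lam / lam) (s, (w : EE (n + 1)))) ?_
  have hI : Integrable (fun q : Sp (n + 1) × ℝ =>
      (1 : ℝ) * (Icc (0 : ℝ) 2).indicator (fun _ => (2 : ℝ) ^ n) q.2)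
      ((sg (n + 1)).prod volume) := by
    refine Integrable.mul_prod (integrable_const (1 : ℝ)) ?_
    rw [integrable_indicator_iff measurableSet_Icc]
    exact integrableOn_const measure_Icc_lt_top.ne (by finiteness)
  refine hI.mono' ?_ (Filter.Eventually.of_forall fun q => ?_)
  · apply Measurable.aestronglyMeasurable
    apply Measurable.mul
    · refine measurable_e.comp (measurable_snd.mul (measurable_const.mul (measurable_const.add ?_)))
      exact (Measurable.const_inner (measurable_subtype_coe.comp measurable_fst))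
    · exact (gj_meas n (Lam / lam)).comp
        (measurable_snd.prodMk (measurable_subtype_coe.comp measurable_fst))
  · show ‖e _ * gj n (Lam / lam) (q.2, (q.1 : EE (n + 1)))‖ ≤ _
    rw [norm_mul, norm_e, one_mul, one_mul]
    exact norm_gj_le n _ _ _

end Pool.Agent.H50.BR
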